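import Pool.Agent.Q83.Haar.Plane2

/-!
The tensor product Haar shift can keep almost all the energy of an indicator function on the set.
-/

set_option autoImplicit false
open MeasureTheory Set

namespace Pool.Agent.Results.MP_8c5903_an.NoEta

/-- The real space `L²(ℝ²)`. -/
noncomputable abbrev L2P := Lp ℝ 2 (volume : Measure (ℝ × ℝ))

/-- The bounded linear operators on `L²(ℝ²)`. -/
noncomputable abbrev Op := L2P →L[ℝ] L2P

/-- The value of an operator. -/
noncomputable def app (T : Op) (f : L2P) : L2P := T f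

/-- The dyadic interval `[k 2^j, (k+1) 2^j)`. Its halves are `dy (j-1) (2k)` (left) and
`dy (j-1) (2k+1)` (right). -/
def dy (j k : ℤ) : Set ℝ := Ico (k * (2 : ℝ) ^ j) ((k + 1) * 2 ^ j)

/-- The Haar function of `J = dy j k`: `|J|^{-1/2} (1_{J_+} - 1_{J_-})`. -/
noncomputable def haar (j k : ℤ) (x : ℝ) : ℝ :=
  (√((2 : ℝ) ^ j))⁻¹ *
    ((dy (j - 1) (2 * k + 1)).indicator 1 x - (dy (j - 1) (2 * k)).indicator 1 x)

/-- The product Haar function `(x, y) ↦ h_{dy j k}(x) h_{dy i l}(y)`. -/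
noncomputable def haar2 (j k i l : ℤ) (z : ℝ × ℝ) : ℝ := haar j k z.1 * haar i l z.2

lemma memLp_haar2 (j k i l : ℤ) : MemLp (haar2 j k i l) 2 volume := Q83.Haar.memLp_hf2 j k i l

/-- The product Haar function as an element of `L²(ℝ²)`. -/
noncomputable def hh (j k i l : ℤ) : L2P := (memLp_haar2 j k i l).toLp _

/-- `T = T₁ ⊗ T₁` on the product Haar basis, `T₁` the Haar shift (`T₁ h_{I_±} = ± h_{I_∓}`): the
four relations for the halves of `I = dy j k` and of `J = dy i l`. -/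
def IsShift2 (T : Op) : Prop := ∀ j k i l : ℤ,
  app T (hh (j - 1) (2 * k + 1) (i - 1) (2 * l + 1)) = hh (j - 1) (2 * k) (i - 1) (2 * l) ∧
  app T (hh (j - 1) (2 * k + 1) (i - 1) (2 * l)) = -hh (j - 1) (2 * k) (i - 1) (2 * l + 1) ∧
  app T (hh (j - 1) (2 * k) (i - 1) (2 * l + 1)) = -hh (j - 1) (2 * k + 1) (i - 1) (2 * l) ∧
  app T (hh (j - 1) (2 * k) (i - 1) (2 * l)) = hh (j - 1) (2 * k + 1) (i - 1) (2 * l + 1)

lemma isShift2_iff (T : Op) : IsShift2 T ↔ Q83.Haar.IsShift2 T := by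
  constructor
  · intro h j k i l
    have := h (j + 1) k (i + 1) l
    rw [show j + 1 - 1 = j by ring, show i + 1 - 1 = i by ring] at this
    exact this
  · intro h j k i l
    exact h (j - 1) k (i - 1) l

/-- `f` is the class of the indicator function of `U`. -/
def IsInd (U : Set (ℝ × ℝ)) (f : L2P) : Prop := f =ᵐ[volume] U.indicator (fun _ => 1)

/-- The energy of `f` on `U`. -/
noncomputable def en (U : Set (ℝ × ℝ)) (f : L2P) : ℝ := ∫ z in U, f z ^ 2

/-- There is exactly one operator `T = T₁ ⊗ T₁`, and for every `η < 1` there is a measurable set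
`U` of finite positive measure with `∫_U |T 1_U|² > η |U|`. -/
theorem result : (∃! T : Op, IsShift2 T) ∧ ∀ T : Op, IsShift2 T → ∀ η : ℝ, η < 1 →
    ∃ (U : Set (ℝ × ℝ)) (f : L2P), MeasurableSet U ∧ 0 < volume U ∧ volume U < ⊤ ∧ IsInd U f ∧
      η * volume.real U < en U (app T f) := by
  constructor
  · obtain ⟨T, hT⟩ := Q83.Haar.exists_shift2
    refine ⟨T, (isShift2_iff T).2 hT, fun T' hT' => ?_⟩
    exact Q83.Haar.unique_shift2 ((isShift2_iff T').1 hT') hT
  · intro T hT η hη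
    obtain ⟨n, hn⟩ := exists_pow_lt_of_lt_one (show (0 : ℝ) < (1 - η) / 4 by linarith)
      (show (1 / 2 : ℝ) < 1 by norm_num)
    have hpos : (0 : ℝ) < (1 / 2) ^ n := by positivity
    refine ⟨Q83.Haar.Un n, Q83.Haar.Fn n, Q83.Haar.measurableSet_Un n, ?_, ?_, Q83.Haar.coe_Fn n, ?_⟩
    · rw [Q83.Haar.vol_Un]
      exact ENNReal.ofReal_pos.2 hpos
    · rw [Q83.Haar.vol_Un]
      exact ENNReal.ofReal_lt_top
    · have h := Q83.Haar.loss ((isShift2_iff T).1 hT) n
      unfold en app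
      refine lt_of_lt_of_le ?_ h
      unfold Measure.real
      rw [Q83.Haar.vol_Un, ENNReal.toReal_ofReal hpos.le]
      have h4 : (1 / 4 : ℝ) ^ n = (1 / 2) ^ n * (1 / 2) ^ n := by
        rw [← mul_pow]
        norm_num
      rw [h4]
      nlinarith

end Pool.Agent.Results.MP_8c5903_an.NoEta
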